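import Pool.Agent.W47.JL.Defs

/-!
Project JL (helper47), MP_7e9a3a_nt: part S_DIV.
-/

set_option autoImplicit false

namespace Pool.Agent.W636.JL

open Finset Polynomial
open Pool.Agent.W47.JL

theorem map_self (p : ℤ[X]) : p.map (algebraMap ℤ ℤ) = p := by
  rw [Algebra.algebraMap_self, Polynomial.map_id]

theorem div : S_DIV := by
  intro n N k j hN hk hj
  obtain ⟨M, rfl⟩ : ∃ M, N = M + 1 := ⟨N - 1, by omega⟩
  by_cases hkj : k = j
  · subst hkj
    obtain ⟨gp, -, hgp⟩ := aeval_sumIDeriv_of_pos ℤ (f n (M + 1) k) (q := M + 1) (by omega)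
      (by rw [Algebra.algebraMap_self]; exact Function.injective_id)
    have hf : (f n (M + 1) k).map (algebraMap ℤ ℤ) = (X - C (k : ℤ)) ^ (M + 1 - 1) *
        ∏ i ∈ (range (n + 1)).erase k, (X - C (i : ℤ)) ^ (M + 1) := by
      rw [map_self, f, ← Finset.mul_prod_erase _ _ (Finset.mem_range.2 (by omega : k < n + 1)),
        if_pos rfl]
      congr 1
      refine Finset.prod_congr rfl fun i hi => ?_
      rw [if_neg (Finset.ne_of_mem_erase hi)]
    have h1 := hgp (k : ℤ) hf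
    rw [coe_aeval_eq_eval] at h1
    refine ⟨∏ i ∈ (range (n + 1)).erase k, ((k : ℤ) - i) ^ (M + 1) +
      ((M + 1 : ℕ) : ℤ) * gp.eval (k : ℤ), ?_, fun h => absurd rfl h, fun _ => ⟨gp.eval (k : ℤ), rfl⟩⟩
    rw [h1, eval_prod]
    simp only [eval_pow, eval_sub, eval_X, eval_C, Nat.add_sub_cancel, nsmul_eq_mul]
    rw [Nat.factorial_succ]
    push_cast
    ring
  · obtain ⟨gp, -, hgp⟩ := aeval_sumIDeriv ℤ (f n (M + 1) k) (M + 1)
    have hf : (X - C (j : ℤ)) ^ (M + 1) ∣ (f n (M + 1) k).map (algebraMap ℤ ℤ) := by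
      rw [map_self, f]
      have := Finset.dvd_prod_of_mem
        (fun i : ℕ => (X - C (i : ℤ)) ^ (if i = k then M + 1 - 1 else M + 1))
        (Finset.mem_range.2 (by omega : j < n + 1))
      simp only [if_neg (Ne.symm hkj)] at this
      exact this
    have h1 := hgp (j : ℤ) hf
    rw [coe_aeval_eq_eval] at h1
    refine ⟨((M + 1 : ℕ) : ℤ) * gp.eval (j : ℤ), ?_, fun _ => Dvd.intro _ rfl,
      fun h => absurd h hkj⟩
    rw [h1]
    simp only [Nat.add_sub_cancel, nsmul_eq_mul]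
    rw [Nat.factorial_succ]
    push_cast
    ring

end Pool.Agent.W636.JL
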